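import Pool.Agent.Lib.helper10.Sig2

namespace Pool.Agent.Results.MP_52a6f5_lc.NPHard

open Pool.Agent.Cx Pool.Agent.Sig

theorem result : NPHard (Lang fun z : Inst => Valid z ∧ Load z) :=
  (hard_load _ fun _ h _ => and_iff_right h).npHard

end Pool.Agent.Results.MP_52a6f5_lc.NPHard
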